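import Pool.Agent.Helper14.W5.StB
import Pool.Agent.Helper93.TLE.Defs

/-!
# Levels `p^n`, no sign condition: the dimension chain for every prime `p`

The statements `SPHk, SPHkS, SPHkW, SPEv, SPAvg, SPMon, SPCom, SPB3a` of `Helper14/W5/StB.lean` (proved, all primes) are used as they are. The other predicates are those of `Helper83/T7C/StB.lean` with `1` in the place of `7`.
-/

set_option autoImplicit false

namespace Pool.Agent.Helper83.P1C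

open Pool.Agent.Helper14.CV (Homog EqC act Tl StFar StFex)
open Pool.Agent.Helper28.WK (SymP Tw evw Ok)
open Pool.Agent.Helper14.W5 (NewSymP NSP XSP evLP SPAvg SPEv SPB3a)
open Pool.Agent.Helper93.TLE (DDE)

/-- B3b with dimension `D`: the values at words of the symbols of level `p^2` lie in a space of dimension `D`. -/
def B3bP (p D : ℕ) : Prop := ∃ e : Fin D → List ℕ → ℂ, ∀ G : ℤ → ℤ → ℂ, SymP p 0 2 G →
  ∃ x : Fin D → ℂ, ∀ ls : List ℕ, Ok p ls → evw 1 ls G = ∑ i, x i * e i ls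

/-- UB: the space of new symbols of level `p^n` modulo constants has dimension at most `dd n` (`n ≥ 3`). -/
def UBP (p : ℕ) (dd : ℕ → ℕ) : Prop := ∀ n : ℕ, 3 ≤ n → ∃ Θ : NSP p n →ₗ[ℂ] (Fin (dd n) → ℂ),
  ∀ G : NSP p n, Θ G = 0 → EqC (G : ℤ → ℤ → ℂ) 0

/-- LB: the image of `evLP p` on the symbols of level `p^n` has dimension at least `D + ∑_{3 ≤ m ≤ n} dd m` (`n ≥ 2`). -/
def LBP (p D : ℕ) (dd : ℕ → ℕ) : Prop := ∀ n : ℕ, 2 ≤ n →
  ∃ G : Fin (DDE D dd n) → (ℤ → ℤ → ℂ), (∀ k, SymP p 0 n (G k)) ∧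
  LinearIndependent ℂ (fun k => evLP p (G k))

/-- Core: a new symbol of level `p^n`, `n ≥ 3`, with `W = -1`, `* = +1` which is killed by all words is constant. -/
def CoreP (p : ℕ) : Prop := ∀ (n : ℕ) (G : ℤ → ℤ → ℂ), 3 ≤ n → NewSymP p n G →
  (∀ ls : List ℕ, Ok p ls → evw 1 ls G = 0) → EqC G 0

/-- CORE. -/
def SPCoreOf : Prop := SPB3a → ∀ (p D : ℕ) (dd : ℕ → ℕ), p.Prime → B3bP p D → UBP p dd →
  LBP p D dd → CoreP p

/-- Core for symbols of any type: killed by all words, `W = -1`, `* = +1` implies constant, at level `p^n`. -/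
def CoreVP (p n : ℕ) : Prop := ∀ G : ℤ → ℤ → ℂ, SymP p 0 n G →
  EqC (act 0 (-1) ((p : ℤ) ^ n) 0 G) (-G) → EqC (act (-1) 0 0 1 G) G →
  (∀ ls : List ℕ, Ok p ls → evw 1 ls G = 0) → EqC G 0

/-- A symbol `K` of level `p^2` with `K∘W ≈ -K`, `K∘* ≈ K` and `a K = 0` is constant. -/
def BsP (p D : ℕ) (a : (ℤ → ℤ → ℂ) →ₗ[ℂ] (Fin D → ℂ)) : Prop := ∀ K : ℤ → ℤ → ℂ, SymP p 0 2 K →
  EqC (act 0 (-1) ((p : ℤ) ^ 2) 0 K) (-K) → EqC (act (-1) 0 0 1 K) K → a K = 0 → EqC K 0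

/-- B3b. -/
def SPB3bG : Prop := ∀ (p D : ℕ) (a : (ℤ → ℤ → ℂ) →ₗ[ℂ] (Fin D → ℂ)), p.Prime →
  SPAvg → SPEv → BsP p D a → B3bP p D

/-- CORE2. -/
def SPCore2G : Prop := ∀ (p D : ℕ) (a : (ℤ → ℤ → ℂ) →ₗ[ℂ] (Fin D → ℂ)), p.Prime →
  ∀ dd : ℕ → ℕ, SPAvg → SPEv → BsP p D a → LBP p D dd → CoreVP p 2

end Pool.Agent.Helper83.P1C
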