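import Pool.Agent.Helper83.P1C.Fin
import Pool.Agent.Helper85.P11.M_Ad
import Pool.Agent.Helper38.CV.M_Far

/-!
# Levels `11^n`: the cores and weight two from the bounds
-/

set_option autoImplicit false

open UpperHalfPlane CongruenceSubgroup
open scoped MatrixGroups

namespace Pool.Agent.Helper83.P1C

open Pool.Agent.Helper28.TL (IsNewN)
open Pool.Agent.Helper14.CV (G0)
open Pool.Agent.Helper85.P11 (a11)

theorem bs11 : BsP 11 5 a11 := Pool.Agent.Helper85.P11.bsP11 (Pool.Agent.Helper38.CV.hFar)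

theorem core1_11 : CoreVP 11 1 := Pool.Agent.Helper85.P11.coreP11 (Pool.Agent.Helper38.CV.hFar)

/-- The core for levels `11^n`, `n ≥ 3`, from the bounds. -/
theorem core3_11 {dd : ℕ → ℕ} (ub : UBP 11 dd) (lb : LBP 11 5 dd) : CoreP 11 :=
  coreP (by norm_num) bs11 ub lb

/-- The core for the level `121`, from the lower bound. -/
theorem core2_11 {dd : ℕ → ℕ} (lb : LBP 11 5 dd) : CoreVP 11 2 :=
  core2P (by norm_num) bs11 lb

/-- Weight two, levels `11^n`: nonvanishing at the centre for root number one, from the bounds. -/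
theorem lval11Of {dd : ℕ → ℕ} (ub : UBP 11 dd) (lb : LBP 11 5 dd)
    (n : ℕ) [NeZero (11 ^ n)] (f : CuspForm (G0 (11 ^ n)) 2) (hf : IsNewN f)
    (hR : Pool.Agent.Helper14.CV.RootOne f) : Pool.Agent.Helper14.CV.Lan f (1 / 2) ≠ 0 :=
  lvalOf (by norm_num) bs11 core1_11 ub lb n f hf hR

end Pool.Agent.Helper83.P1C
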