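import Pool.Agent.Helper83.P1C.M_CoreOf
import Pool.Agent.Helper83.P1C.M_B3bG
import Pool.Agent.Helper83.P1C.M_Core2G
import Pool.Agent.Helper10.CV.M_N1
import Pool.Agent.Helper69.W5.M_PHk
import Pool.Agent.Helper83.W5.M_PHkS
import Pool.Agent.Helper43.W5.M_PHkW
import Pool.Agent.Helper8.W5.M_PEv
import Pool.Agent.Helper7.W5.M_PAvg
import Pool.Agent.Helper92.W5.M_PMon
import Pool.Agent.Helper86.W5.M_PCom
import Pool.Agent.Helper37.W5.M_PB3a

/-!
# Levels `p^n`: the chain, without hypotheses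
-/

set_option autoImplicit false

namespace Pool.Agent.Helper83.P1C

open Pool.Agent.Helper14.CV (Homog EqC act Tl)
open Pool.Agent.Helper28.WK (SymP Tw evw Ok)
open Pool.Agent.Helper14.W5

theorem hkP : SPHk := Pool.Agent.Helper69.W5.hPHk Pool.Agent.Helper10.CV.hN1

theorem hksP : SPHkS := Pool.Agent.Helper83.W5.hPHkS hkP

theorem hkwP : SPHkW := Pool.Agent.Helper43.W5.hPHkW hkP

theorem avgP : SPAvg := Pool.Agent.Helper7.W5.hPAvg

theorem comP : SPCom := Pool.Agent.Helper86.W5.hPCom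

theorem evP : SPEv := Pool.Agent.Helper8.W5.hPEv hksP hkwP

theorem b3aP : SPB3a := Pool.Agent.Helper37.W5.hPB3a avgP Pool.Agent.Helper92.W5.hPMon comP evP

theorem b3bP {p D : ℕ} {a : (ℤ → ℤ → ℂ) →ₗ[ℂ] (Fin D → ℂ)} (hp : p.Prime)
    (h : BsP p D a) : B3bP p D := hB3bG p D a hp avgP evP h

/-- The core for levels `p^n`, `n ≥ 3`. -/
theorem coreP {p D : ℕ} {a : (ℤ → ℤ → ℂ) →ₗ[ℂ] (Fin D → ℂ)} {dd : ℕ → ℕ} (hp : p.Prime)
    (h : BsP p D a) (ub : UBP p dd) (lb : LBP p D dd) : CoreP p :=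
  hCoreOf b3aP p D dd hp (b3bP hp h) ub lb

/-- The core for the level `p^2`. -/
theorem core2P {p D : ℕ} {a : (ℤ → ℤ → ℂ) →ₗ[ℂ] (Fin D → ℂ)} {dd : ℕ → ℕ} (hp : p.Prime)
    (h : BsP p D a) (lb : LBP p D dd) : CoreVP p 2 :=
  hCore2G p D a hp dd avgP evP h lb

/-- The core for the level `1`: the matrix of `W` is in the group. -/
theorem core0P (p : ℕ) : CoreVP p 0 := by
  intro G hS hW _ _
  obtain ⟨c, hc⟩ := hS.2 0 (-1) 1 0 (by norm_num) (by simp) (by simp)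
  obtain ⟨e, he⟩ := hW
  rw [pow_zero] at he
  refine ⟨(e - c) / 2, fun x y hxy => ?_⟩
  have h1 := hc x y hxy
  have h2 := he x y hxy
  simp only [Pi.neg_apply] at h2
  rw [Pi.zero_apply, Pi.zero_apply]
  rw [h1] at h2
  linear_combination h2 / 2

end Pool.Agent.Helper83.P1C
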