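import Pool.Agent.Helper28.TL.M_Fin
import Pool.Agent.Helper83.P1C.StB

/-!
# Levels `p^n`, weight `2`, every prime `p`: from the core to the theorem

Adapted from `Helper28/TH/M_FinH.lean`.
-/

set_option autoImplicit false

open UpperHalfPlane CongruenceSubgroup
open scoped MatrixGroups

namespace Pool.Agent.Helper83.P1C

open Pool.Agent.Helper14.CV (Homog EqC act Tl G0)
open Pool.Agent.Helper28.WK (SymP Tw evw Ok pr cp WT)
open Pool.Agent.Helper14.WK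
open Pool.Agent.Helper28.TL
open Pool.Agent.Helper14.W5 (NewSymP)

/-- What a newform of weight two and level `p^n` with root number one gives. -/
structure PData (p n : ℕ) (G : ℤ → ℤ → ℂ) : Prop where
  hom : Homog G
  sym : ∀ a b c d : ℤ, a * d - b * c = 1 → (p : ℤ) ^ n ∣ c → EqC (act a b c d G) G
  fr : EqC (act 0 (-1) ((p : ℤ) ^ n) 0 G) (-G)
  st : EqC (act (-1) 0 0 1 G) G
  tt : 2 ≤ n → ∀ x y : ℤ, (x ≠ 0 ∨ y ≠ 0) → ∑ i ∈ Finset.range p, G (p * x + (i : ℤ) * y) (p * y) = 0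
  ss : 2 ≤ n → ∃ C : ℂ, ∀ x y : ℤ, (x ≠ 0 ∨ y ≠ 0) →
    ∑ i ∈ Finset.range p, G x ((i : ℤ) * ((p : ℤ) ^ (n - 1)) * x + y) = C

private lemma Tl_congr {H K : ℤ → ℤ → ℂ} (l : ℕ) (hl : 0 < l)
    (h : ∀ p q : ℤ, (p ≠ 0 ∨ q ≠ 0) → H p q = K p q) :
    ∀ p q : ℤ, (p ≠ 0 ∨ q ≠ 0) → Tl l 1 H p q = Tl l 1 K p q := by
  intro p q hpq
  have hl0 : (l : ℤ) ≠ 0 := by exact_mod_cast hl.ne'
  simp only [Tl]
  have n1 : ((l : ℤ) * p ≠ 0 ∨ q ≠ 0) := by
    rcases hpq with h0 | h0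
    · exact Or.inl (mul_ne_zero hl0 h0)
    · exact Or.inr h0
  rw [h _ _ n1]
  congr 1
  refine Finset.sum_congr rfl ?_
  intro j _
  apply h
  by_cases hq : q = 0
  · left
    rcases hpq with h0 | h0
    · rw [hq, mul_zero, add_zero]
      exact h0
    · exact absurd hq h0
  · exact Or.inr (mul_ne_zero hl0 hq)

private lemma Tl_smul {H : ℤ → ℤ → ℂ} (l : ℕ) (c : ℂ) (p q : ℤ) :
    Tl l 1 (fun p q => c * H p q) p q = c * Tl l 1 H p q := by
  simp only [Tl]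
  rw [mul_add, Finset.mul_sum]

private lemma Tl_step {K : ℤ → ℤ → ℂ} (l : ℕ) (hl : 0 < l) (lam : ℂ)
    (hT : ∀ p q : ℤ, (p ≠ 0 ∨ q ≠ 0) → Tl l 1 K p q = lam * K p q) (c : ℂ)
    {H : ℤ → ℤ → ℂ} (hH : ∀ p q : ℤ, (p ≠ 0 ∨ q ≠ 0) → H p q = c * K p q) :
    ∀ p q : ℤ, (p ≠ 0 ∨ q ≠ 0) → Tl l 1 H p q = lam * c * K p q := by
  intro p q hpq
  have e1 := Tl_congr l hl (H := H) (K := fun p q => c * K p q) hH p q hpq
  rw [e1, Tl_smul, hT p q hpq]
  ring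

/-- A word acts on a common eigenvector by a scalar. -/
private theorem Tw_scalarP {r : ℕ} {K : ℤ → ℤ → ℂ}
    (hT : ∀ l : ℕ, l.Prime → l ≠ r → ∃ lam : ℂ, ∀ x y : ℤ, (x ≠ 0 ∨ y ≠ 0) →
      Tl l 1 K x y = lam * K x y) (ls : List ℕ) (hls : Ok r ls) :
    ∃ c : ℂ, ∀ x y : ℤ, (x ≠ 0 ∨ y ≠ 0) → Tw 1 ls K x y = c * K x y := by
  induction ls with
  | nil => exact ⟨1, fun p q _ => (one_mul _).symm⟩
  | cons l ls ih =>
    obtain ⟨c, hc⟩ := ih fun x hx => hls x (List.mem_cons_of_mem _ hx)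
    obtain ⟨h1, h2⟩ := hls l List.mem_cons_self
    obtain ⟨lam, hlam⟩ := hT l h1 h2
    exact ⟨lam * c, Tl_step l h1.pos lam hlam c hc⟩

private lemma mp_zero (a b c d : ℤ) : mp 0 a b c d 0 = 1 := by
  simp [mp]

private lemma pr_one (I : ℤ → ℤ → ℕ → ℂ) : pr I 1 = cp I 0 := by
  rw [← Pool.Agent.Helper28.WK.pr_X_pow I 0, pow_zero]

/-! ### Weight `2` as the case `A = 0` -/

private lemma LanK_eq {N : ℕ} [NeZero N] {k : ℤ} (hk : 0 < k) (h2 : k = 2)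
    (f : CuspForm (G0 N) k) (g : CuspForm (G0 N) 2) (hfg : HEq f g) (s : ℂ) :
    LanK hk f s = Pool.Agent.Helper14.CV.Lan g s := by
  subst h2
  obtain rfl := eq_of_heq hfg
  have e : (((2 : ℤ) : ℂ) - 1) / 2 = 1 / 2 := by norm_num
  unfold LanK Pool.Agent.Helper14.CV.Lan
  rw [e]

private lemma RootOneK_of {N : ℕ} [NeZero N] {k : ℤ} (hk : 0 < k) (h2 : k = 2)
    (f : CuspForm (G0 N) k) (g : CuspForm (G0 N) 2) (hfg : HEq f g)
    (h : Pool.Agent.Helper14.CV.RootOne g) : RootOneK hk f := by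
  have hL := LanK_eq hk h2 f g hfg
  subst h2
  intro s h1 h3
  have e : (((2 : ℤ) : ℂ) - 1) / 2 = 1 / 2 := by norm_num
  have a1 : (-1 / 2 : ℝ) < s.re := by
    have : (-(((2 : ℤ) : ℝ) - 1) / 2 : ℝ) = -1 / 2 := by norm_num
    rw [← this]
    exact h1
  have a2 : s.re < (3 / 2 : ℝ) := by
    have : ((((2 : ℤ) : ℝ) + 1) / 2 : ℝ) = 3 / 2 := by norm_num
    rw [← this]
    exact h3
  have := h s a1 a2
  unfold Pool.Agent.Helper14.CV.Lam at this
  unfold LamK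
  rw [e, hL, hL]
  exact this

private lemma Fp_eq {N : ℕ} (f : CuspForm (G0 N) 2) (z : ℂ) :
    Pool.Agent.Helper14.CV.Fp f z = 2 * Real.pi * Complex.I * EK f 0 z := by
  have hpi : (2 * Real.pi * Complex.I : ℂ) ≠ 0 := Complex.two_pi_I_ne_zero
  unfold EK Pool.Agent.Helper14.CV.Fp
  rw [Finset.sum_range_one, pow_zero, Nat.descFactorial_zero, Nat.cast_one, Nat.sub_zero,
    pow_zero, one_mul, one_mul, one_mul]
  unfold FpK
  rw [← tsum_mul_left]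
  refine tsum_congr fun m => ?_
  have e : Pool.Agent.Helper14.CV.fc f m = fcK f m := rfl
  rw [e, zero_add, pow_one]
  by_cases hm : (m : ℂ) = 0
  · rw [hm]
    simp
  · field_simp

private lemma fc_zero {N : ℕ} (m : ℕ) :
    Pool.Agent.Helper14.CV.fc (0 : CuspForm (G0 N) 2) m = 0 := by
  unfold Pool.Agent.Helper14.CV.fc
  rw [FunLike.coe_zero]
  simp [UpperHalfPlane.qExpansion_zero]

/-- Levels `p^n`. -/
theorem finalP (p n : ℕ) (hp : p.Prime)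
    (core : ∀ G : ℤ → ℤ → ℂ, PData p n G → (∀ ls : List ℕ, Ok p ls → evw 1 ls G = 0) → EqC G 0)
    [NeZero (p ^ n)] (f : CuspForm (G0 (p ^ n)) 2) (hf : IsNewN f)
    (hR : Pool.Agent.Helper14.CV.RootOne f) :
    Pool.Agent.Helper14.CV.Lan f (1 / 2) ≠ 0 := by
  intro hL
  have hk : 0 < (2 * ((0 : ℕ) : ℤ) + 2 : ℤ) := by norm_num
  have h2 : (2 * ((0 : ℕ) : ℤ) + 2 : ℤ) = 2 := by norm_num
  have hfp : ∃ f' : CuspForm (G0 (p ^ n)) (2 * ((0 : ℕ) : ℤ) + 2),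
      HEq f' f ∧ IsNewN f' ∧ (∀ j z, EK f' j z = EK f j z) :=
    ⟨f, HEq.rfl, hf, fun _ _ => rfl⟩
  obtain ⟨f', hff, hf', hE⟩ := hfp
  have hR' : RootOneK hk f' := RootOneK_of hk h2 f' f hff hR
  have hL' : LanK hk f' (1 / 2) = 0 := by
    rw [LanK_eq hk h2 f' f hff]
    exact hL
  have ka1 := Pool.Agent.Helper63.WK.hKA1
  have kb := Pool.Agent.Helper92.WK.hKA1b ka1
  have ke := Pool.Agent.Helper6.WK.hKE ka1
  have ka4 := Pool.Agent.Helper83.WK.hKA4 ka1 kb ke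
  have ka5 := Pool.Agent.Helper86.WK.hKA5 ka1 kb ke
  have kh1 := Pool.Agent.Helper79.WK.hKH1 ka1
  have kh2 := Pool.Agent.Helper99.WK.hKH2 kh1 ke kb
  have kh3 := Pool.Agent.Helper62.WK.hKH3 kh2 Pool.Agent.Helper69.WK.hKP1
  obtain ⟨I, hI, hI0⟩ := ka4 (p ^ n) inferInstance 0 f'
  have hrel := potRel_of (p ^ n) inferInstance hk f' hR' I hI
  have ecast : ((p ^ n : ℕ) : ℤ) = (p : ℤ) ^ n := by push_cast; ring
  rw [ecast] at hrel
  have hP0 : (p : ℤ) ≠ 0 := by exact_mod_cast hp.ne_zero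
  have hN0 : (p : ℤ) ^ n ≠ 0 := pow_ne_zero _ hP0
  have hp0 : p ^ (n - 1) ≠ 0 := pow_ne_zero _ hp.ne_zero
  have uvp := fun hn : 2 ≤ n => UV_of p (p ^ (n - 1)) hp (dvd_pow_self p (by omega))
    hp0 (p ^ n) (by
      obtain ⟨m, rfl⟩ : ∃ m, n = m + 1 := ⟨n - 1, by omega⟩
      rw [Nat.add_sub_cancel, pow_succ]
      ring) inferInstance hk f' hf' hR' I hI
  have e3 : ((p ^ (n - 1) : ℕ) : ℤ) = (p : ℤ) ^ (n - 1) := by push_cast; ring
  have hrel' := hrel.evn hN0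
  have hD : PData p n (evn (cp I 0)) := by
    refine ⟨hrel'.hom, hrel'.sym, hrel'.fr, ?_, ?_, ?_⟩
    · refine ⟨0, fun x y _ => ?_⟩
      simp only [act]
      have f1 : -1 * x + 0 * y = -x := by ring
      have f2 : 0 * x + 1 * y = y := by ring
      rw [f1, f2, evn_even, add_zero]
    · intro hn x y hxy
      exact (uvp hn).1.evn hrel hp.pos x y hxy
    · intro hn
      exact Vr.evn (e3 ▸ (uvp hn).2)
  have hHk : ∀ l : ℕ, l.Prime → l ≠ p → ∃ lam : ℂ, ∀ x y : ℤ, (x ≠ 0 ∨ y ≠ 0) →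
      Tl l 1 (evn (cp I 0)) x y = lam * evn (cp I 0) x y := by
    intro l hl hlp
    have hlN : ¬ l ∣ p ^ n := by
      intro h
      exact hlp ((Nat.prime_dvd_prime_iff_eq hl hp).1 (hl.dvd_of_dvd_pow h))
    refine ⟨fcK f' l, Tl_evn hrel l hl.pos _ ?_⟩
    intro x y hxy
    have := kh3 (p ^ n) inferInstance 0 f' I l (fcK f' l) 1 hI hl.pos
      (hf'.hecke l hl hlN) isCoprime_one_left 0 le_rfl x y hxy
    simp only [WT, pow_zero, pr_one, Nat.mul_zero, Nat.sub_self, one_smul] at this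
    simp only [Tl]
    rw [add_comm]
    exact this
  have hG10 : cp I 0 (-1) 0 = cp I 0 1 0 := by
    have := hrel.hom (-1) 1 0 (by norm_num) (Or.inl one_ne_zero)
    simpa using this
  have h10 : cp I 0 1 0 = 0 := hI0 0 le_rfl
  have h01 : cp I 0 0 1 = 0 := ka5 (p ^ n) inferInstance 0 hk f' I hI hL'
  have hev : ∀ ls : List ℕ, Ok p ls → evw 1 ls (evn (cp I 0)) = 0 := by
    intro ls hls
    obtain ⟨c, hc⟩ := Tw_scalarP hHk ls hls
    unfold evw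
    rw [hc 1 0 (Or.inl one_ne_zero), hc 0 1 (Or.inr one_ne_zero)]
    simp only [evn, neg_zero]
    rw [hG10, h01, h10]
    ring
  obtain ⟨c, hc⟩ := core _ hD hev
  have hPot : Pool.Agent.Helper14.CV.IsPot f
      (fun x y => 2 * Real.pi * Complex.I * cp I 0 x y) := by
    intro a b c d hdet x
    have := (hI a b c d hdet 0 le_rfl x).const_mul (2 * Real.pi * Complex.I)
    simp only [hE] at this
    simp only [Fp_eq]
    exact this
  have a1 := Pool.Agent.Helper7.CV.hA1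
  have a1b := Pool.Agent.Helper10.CV.hA1b a1
  have a3 := Pool.Agent.Helper72.CV.hA3 a1
  have p1 := Pool.Agent.Helper87.CV.hP1
  have a6 := Pool.Agent.Helper96.CV.hA6 a1 a1b a3 Pool.Agent.Helper38.CV.hA6a
    (Pool.Agent.Helper79.CV.hA6b a1) p1
  have hf0 : f = 0 := by
    refine a6 (p ^ n) inferInstance f _ (2 * Real.pi * Complex.I * c) hPot ?_
    intro x y hxy
    have e := hc x y hxy
    simp only [evn, Pi.zero_apply, zero_add] at e
    rw [← mul_add, e]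
  have h1 : Pool.Agent.Helper14.CV.fc f 1 = 1 := hf.normalised
  rw [hf0, fc_zero] at h1
  exact zero_ne_one h1

theorem symP_of {p n : ℕ} {G : ℤ → ℤ → ℂ} (h : PData p n G) : SymP p 0 n G :=
  ⟨h.hom, fun a b c d hd _ hc => h.sym a b c d hd hc⟩

theorem newSymP_of {p n : ℕ} (hn : 2 ≤ n) {G : ℤ → ℤ → ℂ} (h : PData p n G) : NewSymP p n G := by
  refine ⟨symP_of h, ?_, ?_, h.fr, h.st⟩
  · refine ⟨0, fun x y hxy => ?_⟩
    have := h.tt hn x y hxy
    simp only [Finset.sum_apply, act, zero_mul, zero_add, Pi.zero_apply, add_zero]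
    exact this
  · obtain ⟨C, hC⟩ := h.ss hn
    refine ⟨C, fun x y hxy => ?_⟩
    have := hC x y hxy
    simp only [Finset.sum_apply, act, zero_mul, add_zero, Pi.zero_apply, zero_add, one_mul]
    rw [← this]

/-- Weight two, levels `p^n`: nonvanishing from the cores. -/
theorem lvalP (p : ℕ) (hp : p.Prime) (c0 : CoreVP p 0) (c1 : CoreVP p 1) (c2 : CoreVP p 2)
    (c3 : CoreP p) (n : ℕ) [NeZero (p ^ n)] (f : CuspForm (G0 (p ^ n)) 2) (hf : IsNewN f)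
    (hR : Pool.Agent.Helper14.CV.RootOne f) : Pool.Agent.Helper14.CV.Lan f (1 / 2) ≠ 0 := by
  rcases (by omega : n = 0 ∨ n = 1 ∨ n = 2 ∨ 3 ≤ n) with rfl | rfl | rfl | hn
  · exact finalP p 0 hp (fun G hG hev => c0 G (symP_of hG) hG.fr hG.st hev) f hf hR
  · exact finalP p 1 hp (fun G hG hev => c1 G (symP_of hG) hG.fr hG.st hev) f hf hR
  · exact finalP p 2 hp (fun G hG hev => c2 G (symP_of hG) hG.fr hG.st hev) f hf hR
  · exact finalP p n hp (fun G hG hev => c3 n G hn (newSymP_of (by omega) hG) hev) f hf hR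

end Pool.Agent.Helper83.P1C
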