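import Pool.Agent.Helper83.P1C.Asm
import Pool.Agent.Helper83.P1C.M_Fin

/-!
# Weight two, levels `p^n`: nonvanishing from the bounds and the small levels
-/

set_option autoImplicit false

open UpperHalfPlane CongruenceSubgroup
open scoped MatrixGroups

namespace Pool.Agent.Helper83.P1C

open Pool.Agent.Helper28.TL (IsNewN)
open Pool.Agent.Helper14.CV (G0)

/-- Weight two, levels `p^n`: nonvanishing at the centre for root number one, from the bounds, the level `p^2` and the level `p`. -/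
theorem lvalOf {p D : ℕ} (hp : p.Prime) {a : (ℤ → ℤ → ℂ) →ₗ[ℂ] (Fin D → ℂ)} {dd : ℕ → ℕ}
    (h : BsP p D a) (c1 : CoreVP p 1) (ub : UBP p dd) (lb : LBP p D dd)
    (n : ℕ) [NeZero (p ^ n)] (f : CuspForm (G0 (p ^ n)) 2) (hf : IsNewN f)
    (hR : Pool.Agent.Helper14.CV.RootOne f) : Pool.Agent.Helper14.CV.Lan f (1 / 2) ≠ 0 :=
  lvalP p hp (core0P p) c1 (core2P hp h lb) (coreP hp h ub lb) n f hf hR

end Pool.Agent.Helper83.P1C
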